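import Pool.Agent.H43.CylProb

set_option autoImplicit false

namespace Pool.Agent.Results.MP_6e7106_pr.Elongated

open Pool.Agent.H43.Cyl Finset Relation MeasureTheory ProbabilityTheory Filter Topology SimpleGraph

variable {N m : ℕ} {ω : Sym2 (ZMod N × ZMod m) → Prop}

lemma lift_to (hN : 3 ≤ N) (hm : 3 ≤ m) {v w : ℤ × ZMod m} (h : ReflTransGen (St (eta N ω)) v w) :
    (T N m ⊓ fromEdgeSet {e | ω e}).Reachable (pr N v) (pr N w) := by
  induction h with
  | refl => rfl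
  | tail _ h ih =>
    obtain ⟨e, h1, h2⟩ := h
    have h3 : (T N m ⊓ fromEdgeSet {e | ω e}).Adj (pr N e.1) (pr N (tgt e)) :=
      ⟨ph_mem hN hm e, not_not.1 h1, Adj.ne (G := T N m) (ph_mem hN hm e)⟩
    rcases h2 with ⟨rfl, rfl⟩ | ⟨rfl, rfl⟩
    exacts [ih.trans h3.reachable, ih.trans h3.symm.reachable]

lemma lift_from (hN : 3 ≤ N) (hm : 3 ≤ m) {v : ℤ × ZMod m} {u : ZMod N × ZMod m}
    (h : (T N m ⊓ fromEdgeSet {e | ω e}).Reachable (pr N v) u) :
    ∃ w, pr N w = u ∧ ReflTransGen (St (eta N ω)) v w := by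
  rw [reachable_iff_reflTransGen] at h
  induction h with
  | refl => exact ⟨v, rfl, .refl⟩
  | tail _ h ih =>
    obtain ⟨⟨a, b⟩, rfl, ih⟩ := ih
    obtain ⟨h1, h2, -⟩ := h
    have h3 : ∀ e : E m, ph N e = s(_, _) → ¬ eta N ω e := fun e h => not_not.2 (h ▸ h2)
    rcases (T_adj hN hm).1 h1 with rfl | rfl | rfl | rfl
    · exact ⟨(a + 1, b), by simp [pr], ih.tail ⟨((a, b), false), h3 _ (by simp [ph, pr, tgt]),
        Or.inl ⟨rfl, rfl⟩⟩⟩
    · exact ⟨(a - 1, b), by simp [pr], ih.tail ⟨((a - 1, b), false), h3 _ (by simp [ph, pr, tgt]),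
        Or.inr ⟨rfl, by simp [tgt]⟩⟩⟩
    · exact ⟨(a, b + 1), rfl, ih.tail ⟨((a, b), true), h3 _ rfl, Or.inl ⟨rfl, rfl⟩⟩⟩
    · exact ⟨(a, b - 1), rfl, ih.tail ⟨((a, b - 1), true), h3 _ (by simp [ph, pr, tgt]),
        Or.inr ⟨rfl, by simp [tgt]⟩⟩⟩

lemma walk_col (hN : 3 ≤ N) (hm : 3 ≤ m) {u w : ZMod N × ZMod m} (q : (T N m).Walk u w) :
    ∃ t : ℤ, |t| ≤ q.length ∧ w.1 = u.1 + t := by
  induction q with
  | nil => exact ⟨0, by simp, by simp⟩
  | cons h q ih =>
    obtain ⟨t, h1, h2⟩ := ih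
    rw [abs_le] at h1
    rcases (T_adj hN hm).1 h with rfl | rfl | rfl | rfl
    · exact ⟨t + 1, by rw [abs_le, Walk.length_cons]; omega, by rw [h2]; push_cast; ring⟩
    · exact ⟨t - 1, by rw [abs_le, Walk.length_cons]; omega, by rw [h2]; push_cast; ring⟩
    all_goals exact ⟨t, by rw [abs_le, Walk.length_cons]; omega, h2⟩

lemma ediam_le (hN : 3 ≤ N) (hm : 3 ≤ m) : (T N m).ediam ≤ (N / 2 + m / 2 : ℕ) := by
  haveI : NeZero N := ⟨by omega⟩
  haveI : NeZero m := ⟨by omega⟩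
  have h0 : ∀ (f : ℤ → ZMod N × ZMod m), (∀ i, (T N m).Adj (f i) (f (i + 1))) →
      ∀ i, (T N m).edist (f 0) (f i) ≤ (i.natAbs : ℕ) := fun f hf i => by
    induction i using Int.induction_on with
    | zero => simp
    | succ i ih =>
      refine SimpleGraph.edist_triangle.trans ((add_le_add ih (edist_eq_one_iff_adj.2 (hf i)).le).trans ?_)
      exact_mod_cast le_of_eq (by omega)
    | pred i ih =>
      have h1 := hf (-i - 1)
      rw [sub_add_cancel] at h1
      refine SimpleGraph.edist_triangle.trans ((add_le_add ih (edist_eq_one_iff_adj.2 h1.symm).le).trans ?_)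
      exact_mod_cast le_of_eq (by omega)
  refine ediam_le_of_edist_le fun u v => ?_
  have h1 := h0 (fun i => (u.1 + i, u.2)) (fun i => by simp [T_adj hN hm, add_assoc])
    (v.1 - u.1).valMinAbs
  have h2 := h0 (fun i => (v.1, u.2 + i)) (fun i => by simp [T_adj hN hm, add_assoc])
    (v.2 - u.2).valMinAbs
  simp only [Int.cast_zero, add_zero, ZMod.coe_valMinAbs, add_sub_cancel] at h1 h2
  refine SimpleGraph.edist_triangle.trans ((add_le_add h1 h2).trans ?_)
  exact_mod_cast add_le_add (ZMod.natAbs_valMinAbs_le _) (ZMod.natAbs_valMinAbs_le _)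

lemma connT (hN : 3 ≤ N) (hm : 3 ≤ m) : (T N m).Connected :=
  connected_of_ediam_ne_top (ne_top_of_le_ne_top (ENat.natCast_ne_top _) (ediam_le hN hm))

lemma small [NeZero m] (hN : 3 ≤ N) (hm : 3 ≤ m) {l : ℕ} (h0 : 0 < l) (h1 : l ≤ N)
    (h : ∀ k : Fin (N / l), Bk (0 + k * l) l (eta N ω)) (v : ZMod N × ZMod m) :
    {u | (T N m ⊓ fromEdgeSet {e | ω e}).Reachable v u}.ncard ≤ (6 * l + 1) * m := by
  have h2 : ∀ c : ℤ, ∃ s, c ≤ s ∧ s ≤ c + 2 * l ∧ Bk s l (eta N ω) := fun c => by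
    have h3 : ∀ (k : Fin (N / l)) (t : ℤ), Bk (0 + k * l + N * t) l (eta N ω) := fun k t =>
      (h k).shift _ fun ⟨y, b⟩ he => by cases b <;> simpa [eta, ph, pr, sh, tgt] using he
    have h4 := Int.mul_ediv_add_emod c N
    have h5 := Int.emod_nonneg c (show (N : ℤ) ≠ 0 by omega)
    have h6 := Int.emod_lt_of_pos c (show (0 : ℤ) < N by omega)
    obtain ⟨d, hd⟩ := Int.eq_ofNat_of_zero_le h5
    have h7 := Nat.div_add_mod d l
    have h8 := Nat.mod_lt d h0
    generalize d / l = k, d % l = ρ at *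
    zify at h7 h8
    by_cases h9 : k + 1 < N / l
    · refine ⟨_, ?_, ?_, h3 ⟨_, h9⟩ (c / N)⟩ <;> push_cast <;> linarith [Int.natCast_nonneg ρ]
    · have h10 : N ≤ l * (k + 1) + l := by
        linarith [Nat.mul_le_mul_left l (not_lt.1 h9), Nat.div_add_mod N l, Nat.mod_lt N h0]
      zify at h10
      refine ⟨_, ?_, ?_, h3 ⟨0, Nat.div_pos h1 h0⟩ (c / N + 1)⟩ <;> push_cast <;>
        linarith [Int.natCast_nonneg ρ]
  obtain ⟨x, y⟩ := v
  obtain ⟨c, rfl⟩ := ZMod.intCast_surjective x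
  obtain ⟨s, a1, a2, a3⟩ := h2 c
  obtain ⟨s', b1, b2, b3⟩ := h2 (c - 3 * l)
  refine (Set.ncard_le_ncard (t := ((Icc (c - 3 * l) (c + 3 * l) ×ˢ univ).image (pr N) :
    Finset (ZMod N × ZMod m))) (fun u hu => ?_)).trans ?_
  · obtain ⟨w, rfl, hw⟩ := lift_from hN hm (v := (c, y)) hu
    have h3 := (a3.block hw).1 a1
    have h4 := (b3.block hw).2 (by simp only; omega)
    exact mem_image_of_mem _ (by simp only [mem_product, mem_Icc, mem_univ, and_true]; omega)
  · rw [Set.ncard_coe_finset]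
    refine card_image_le.trans_eq ?_
    rw [card_product, Int.card_Icc, card_univ, ZMod.card]
    congr 1; omega

lemma deg (hN : 3 ≤ N) (hm : 3 ≤ m) (a : ZMod N) (b : ZMod m) :
    ((T N m).neighborSet (a, b)).ncard = 4 := by
  have e1 := one_two hN
  have e2 := one_two hm
  have e3 : a + 1 ≠ a - 1 ∧ a + 1 ≠ a ∧ a - 1 ≠ a :=
    ⟨fun h => e1.2 (by linear_combination h), fun h => e1.1 (by linear_combination h),
      fun h => e1.1 (by linear_combination -h)⟩
  have e4 : b + 1 ≠ b - 1 := fun h => e2.2 (by linear_combination h)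
  rw [show (T N m).neighborSet (a, b) = {(a + 1, b), (a - 1, b), (a, b + 1), (a, b - 1)}
    from Set.ext fun v => T_adj hN hm, Set.ncard_insert_of_notMem,
    Set.ncard_insert_of_notMem, Set.ncard_pair] <;> simp only [Set.mem_insert_iff,
    Set.mem_singleton_iff, Prod.mk.injEq, ne_eq, e3, e4, false_and, and_false, or_false,
    not_false_eq_true]

lemma conv (S : Set (Set (Sym2 (ZMod N × ZMod m)))) :
    (setBernoulli (T N m).edgeSet p).real S = (mu N m).real {ω | {e | ω e} ∈ S} :=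
  congrArg ENNReal.toReal (setBernoulli_apply' S)

theorem result : ∃ (V : ℕ → Type) (G : ∀ n, SimpleGraph (V n)),
    (∀ n, Finite (V n) ∧ (G n).Connected ∧ (∀ v, ((G n).neighborSet v).ncard = 4) ∧
      ∀ u v, ∃ φ : G n ≃g G n, φ u = v) ∧
    Tendsto (fun n => Nat.card (V n)) atTop atTop ∧ ∃ p : unitInterval,
      (∀ n v, 1 / 2 < (setBernoulli (G n).edgeSet p).real {ω | ∃ a b,
        (G n ⊓ fromEdgeSet ω).Reachable v a ∧ (G n ⊓ fromEdgeSet ω).Reachable v b ∧
          (G n).diam ≤ 2 * (G n).dist a b}) ∧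
      ∀ C : ℝ, 0 < C → ¬ Tendsto (fun n => (setBernoulli (G n).edgeSet p).real {ω | ∃ v,
        C * Nat.card (V n) ≤ {u | (G n ⊓ fromEdgeSet ω).Reachable v u}.ncard}) atTop (𝓝 1) := by
  classical
  have hm : ∀ n, 3 ≤ n + 3 := fun n => by omega
  obtain ⟨N, n1, n2⟩ : ∃ N : ℕ → ℕ, (∀ n, 1 / 10 ≤ r (n + 3) (N n)) ∧
      ∀ n, ∀ l < N n, r (n + 3) l < 1 / 10 := ⟨fun n => Nat.find (r_big (hm n)),
    fun n => Nat.find_spec (r_big (hm n)), fun n l h => not_le.1 (Nat.find_min (r_big (hm n)) h)⟩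
  have h1 : ∀ n, n + 13 < N n := fun n => lt_of_not_ge fun h => (r_small (hm n) h).not_ge (n1 n)
  have hN : ∀ n, 3 ≤ N n := fun n => by have := h1 n; omega
  haveI : ∀ n, NeZero (N n) := fun n => ⟨by have := h1 n; omega⟩
  have hc : ∀ n, Nat.card (ZMod (N n) × ZMod (n + 3)) = N n * (n + 3) := fun n => by simp
  refine ⟨fun n => ZMod (N n) × ZMod (n + 3), fun n => T (N n) (n + 3), fun n => ⟨inferInstance,
    connT (hN n) (hm n), fun ⟨a, b⟩ => deg (hN n) (hm n) a b, fun u v => ⟨⟨Equiv.addRight (v - u),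
    circulantGraph_adj_translate⟩, by simp⟩⟩, tendsto_atTop_mono (fun n => ?_) tendsto_id, p,
    fun n ⟨x, y⟩ => ?_, fun C hC h => ?_⟩
  · rw [hc]; have := hN n; simp only [id]; nlinarith
  · obtain ⟨c, rfl⟩ := ZMod.intCast_surjective x
    have h2 := h1 n
    have h3 : 2 * ((N n - 1) / 2) < N n := by omega
    rw [conv]
    refine (P_escape (hN n) (hm n) (c, y) (by omega) h3.le (n2 n _ h3)).trans_le
      (measureReal_mono ?_ (measure_ne_top _ _))
    rintro ω ⟨w, h4, h5⟩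
    refine ⟨_, _, Reachable.refl _, lift_to (hN n) (hm n) h4,
      (ENat.toNat_le_of_le_natCast (ediam_le (hN n) (hm n))).trans ?_⟩
    obtain ⟨q, hq⟩ := (connT (hN n) (hm n)).exists_walk_length_eq_dist (c, y) (pr (N n) w)
    obtain ⟨t, h6, h7⟩ := walk_col (hN n) (hm n) q
    have h8 := Int.eq_zero_of_abs_lt_dvd ((ZMod.intCast_eq_intCast_iff_dvd_sub w.1 (c + t) (N n)).1
      (by simpa [pr] using h7))
    rw [abs_eq (by positivity)] at h5
    rw [abs_le, hq] at h6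
    rw [abs_lt] at h8
    simp only at h5 ⊢
    omega
  obtain ⟨M, hM⟩ := exists_nat_gt (13 / C + 2)
  have hM2 : 2 < M := by exact_mod_cast lt_of_le_of_lt (le_add_of_nonneg_left (by positivity)) hM
  have hMC : 13 < M * C := (div_lt_iff₀ hC).1 (by linarith)
  have h2 : Tendsto (fun n => N n / M / 4) atTop atTop := (Nat.tendsto_div_const_atTop
    (by norm_num)).comp ((Nat.tendsto_div_const_atTop (by omega)).comp
    (tendsto_atTop_mono (fun n => by have := h1 n; simp only [id]; omega) tendsto_id))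
  have h3 := ((((tendsto_self_mul_const_pow_of_lt_one (r := 1 / 2) (by norm_num) (by norm_num)).add
    (tendsto_pow_atTop_nhds_zero_of_lt_one (r := (1 / 2 : ℝ)) (by norm_num) (by norm_num))).const_mul
    (4 * M : ℝ)).comp h2).eventually (gt_mem_nhds (show _ < (1 : ℝ) by simp))
  have h4 : (0 : ℝ) < (1 / (20 * (2 * M + 2))) ^ (2 * M) := by positivity
  obtain ⟨n, ⟨h5, h6⟩, h7⟩ := ((h3.and (h2.eventually_gt_atTop 0)).and
    (h.eventually (lt_mem_nhds (sub_lt_self 1 h4)))).exists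
  have a1 := Nat.div_add_mod (N n) M
  have a2 := Nat.mod_lt (N n) (show 0 < M by omega)
  simp only [Function.comp] at h5
  generalize N n / M = h at *
  have a3 : 0 < h := by omega
  have a4 : 2 * h ≤ N n := by have := Nat.mul_le_mul_right h hM2.le; omega
  have a5 : N n / h ≤ 2 * M := Nat.div_le_of_le_mul (by nlinarith)
  have a6 : (N n : ℝ) ≤ 4 * M * ((h / 4 : ℕ) + 1) := by
    have := Nat.mul_le_mul_left M (show h + 1 ≤ 4 * (h / 4 + 1) by omega)
    exact_mod_cast (by nlinarith : N n ≤ 4 * M * (h / 4 + 1))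
  have a7 := (n1 n).trans (r_split (hN n) (hm n) a3 a4)
  have a8 : 0 ≤ r (n + 3) (2 * h) := measureReal_nonneg
  have a9 : 1 / (20 * (2 * M + 2)) ≤ r (n + 3) (2 * h) := by
    have b1 := mul_le_mul_of_nonneg_right a6 (show (0 : ℝ) ≤ (1 / 2) ^ (h / 4) by positivity)
    have b2 := mul_le_mul_of_nonneg_right (show ((N n / h + 2 : ℕ) : ℝ) ≤ 2 * M + 2 by
      exact_mod_cast Nat.add_le_add_right a5 2) a8
    rw [div_le_iff₀ (by positivity)]
    linarith
  have b1 := windows (hN n) (hm n) 0 (Nat.div_mul_le_self (N n) (2 * h)) (BB (2 * h) (n + 3))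
  have b2 : (1 / (20 * (2 * M + 2)) : ℝ) ^ (2 * M) ≤ r (n + 3) (2 * h) ^ (N n / (2 * h)) :=
    (pow_le_pow_of_le_one (by positivity) ((div_le_one (by positivity)).2 
      (by linarith [Nat.cast_nonneg (α := ℝ) M])) ((Nat.div_le_div_left (by omega) a3).trans a5)).trans
      (pow_le_pow_left₀ (by positivity) a9 _)
  rw [conv] at h7
  refine h7.not_ge ((measureReal_mono (s₂ := _ᶜ) ?_ (measure_ne_top _ _)).trans
    ((probReal_compl_eq_one_sub MeasurableSet.of_discrete).trans_le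
    (sub_le_sub_left (b2.trans_eq b1.symm) 1)))
  rintro ω ⟨v, hv⟩ b3
  have b4 := hv.trans (Nat.cast_le.2 (small (hN n) (hm n) (by omega) a4
    (fun k => Bk_iff.2 (b3 k)) v))
  have b5 : (M * h : ℝ) ≤ N n := by exact_mod_cast (by omega : M * h ≤ N n)
  have b6 : (1 : ℝ) ≤ h := by exact_mod_cast a3
  rw [hc] at b4
  push_cast at b4
  rw [← mul_assoc] at b4
  have b7 := le_of_mul_le_mul_right b4 (by positivity)
  nlinarith

end Pool.Agent.Results.MP_6e7106_pr.Elongated
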